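import Pool.Agent.Helper99.GL.FSpec

/-!
Swarm `GL`, part F20: words in two contractions.
-/

set_option autoImplicit false

open Metric Set Filter Topology

namespace Pool.GL.Helper32

/-- order of vanishing of the difference -/
theorem order_ge_two {D : ℂ → ℂ} (hD : AnalyticAt ℂ D 0) (h0 : D 0 = 0) (h1 : deriv D 0 = 0)
    (hne : ¬ ∀ᶠ z in 𝓝 (0 : ℂ), D z = 0) :
    ∃ (k : ℕ) (c : ℝ), 2 ≤ k ∧ 0 < c ∧
      ∀ᶠ z in 𝓝 (0 : ℂ), c * ‖z‖ ^ k / 2 ≤ ‖D z‖ ∧ ‖D z‖ ≤ 2 * c * ‖z‖ ^ k := by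
  obtain ⟨n, g, hg, hg0, hfg⟩ := hD.exists_eventuallyEq_pow_smul_nonzero_iff.2 hne
  have hDg0 : D 0 = (0 - 0 : ℂ) ^ n • g 0 := hfg.self_of_nhds
  refine ⟨n, ‖g 0‖, ?_, norm_pos_iff.2 hg0, ?_⟩
  · rcases Nat.lt_or_ge n 2 with hn | hn
    · exfalso
      interval_cases n
      · rw [h0] at hDg0
        simp at hDg0
        exact hg0 hDg0.symm
      · have h2 : D =ᶠ[𝓝 0] fun z => z * g z := by
          filter_upwards [hfg] with z hz
          rw [hz]; simp
        have h3 : HasDerivAt (fun z : ℂ => z * g z) (1 * g 0 + 0 * deriv g 0) 0 :=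
          (hasDerivAt_id (0 : ℂ)).mul hg.differentiableAt.hasDerivAt
        have h4 : deriv D 0 = 1 * g 0 + 0 * deriv g 0 := by
          rw [h2.deriv_eq]; exact h3.deriv
        rw [h1] at h4
        simp at h4
        exact hg0 h4.symm
    · exact hn
  · have hcont : ContinuousAt (fun z => ‖g z‖) 0 := hg.continuousAt.norm
    have hpos : 0 < ‖g 0‖ := norm_pos_iff.2 hg0
    have e1 : ∀ᶠ z in 𝓝 (0 : ℂ), ‖g 0‖ / 2 < ‖g z‖ :=
      hcont.eventually (lt_mem_nhds (by simpa using half_lt_self hpos))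
    have e2 : ∀ᶠ z in 𝓝 (0 : ℂ), ‖g z‖ < 2 * ‖g 0‖ :=
      hcont.eventually (gt_mem_nhds (by simpa using by linarith))
    filter_upwards [hfg, e1, e2] with z hz h3 h4
    have hpz : 0 ≤ ‖z‖ ^ n := by positivity
    rw [hz, sub_zero, norm_smul, norm_pow]
    constructor
    · nlinarith
    · nlinarith

theorem dist_thm : S_DIST := by
  intro G ρ hG hG0 hGd hρ hρs hne
  set r : ℝ := ‖ρ‖ with hr
  have hrpos : 0 < r := norm_pos_iff.2 hρ
  -- the difference
  have hDan : AnalyticAt ℂ (fun z => G true z - G false z) 0 := (hG true).sub (hG false)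
  have hD1 : deriv (fun z => G true z - G false z) 0 = 0 := by
    have := ((hG true).differentiableAt.hasDerivAt.sub (hG false).differentiableAt.hasDerivAt).deriv
    rw [hGd, hGd, sub_self] at this
    exact this
  obtain ⟨k, c, hk, hc, hev⟩ := order_ge_two hDan (by simp [hG0]) hD1 (by
    intro hcon
    apply hne
    filter_upwards [hcon] with z hz
    exact sub_eq_zero.1 hz)
  -- strict differentiability
  have hst : ∀ i, ∀ᶠ p : ℂ × ℂ in 𝓝 ((0 : ℂ), (0 : ℂ)),
      ‖G i p.1 - G i p.2 - ρ * (p.1 - p.2)‖ ≤ r / 100 * ‖p.1 - p.2‖ := by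
    intro i
    have h1 : HasStrictDerivAt (G i) (deriv (G i) 0) 0 := (hG i).hasStrictDerivAt
    rw [hGd i] at h1
    have h2 := h1.isLittleO.def (show (0 : ℝ) < r / 100 by positivity)
    filter_upwards [h2] with p hp
    refine le_trans (le_of_eq ?_) hp
    congr 1
    simp [mul_comm]
  have hall : ∀ᶠ p : ℂ × ℂ in 𝓝 ((0 : ℂ), (0 : ℂ)), ∀ i,
      ‖G i p.1 - G i p.2 - ρ * (p.1 - p.2)‖ ≤ r / 100 * ‖p.1 - p.2‖ := by
    rw [Filter.eventually_all]
    exact hst
  obtain ⟨δ₁, hδ₁, hb1⟩ := Metric.eventually_nhds_iff_ball.1 hall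
  obtain ⟨δ₂, hδ₂, hb2⟩ := Metric.eventually_nhds_iff_ball.1 hev
  refine ⟨min δ₁ δ₂, lt_min hδ₁ hδ₂, ?_⟩
  set δ := min δ₁ δ₂ with hδ
  have A : ∀ i, ∀ x y : ℂ, ‖x‖ < δ → ‖y‖ < δ →
      ‖G i x - G i y - ρ * (x - y)‖ ≤ r / 100 * ‖x - y‖ := by
    intro i x y hx hy
    refine hb1 (x, y) ?_ i
    rw [Metric.mem_ball, Prod.dist_eq]
    simp only [dist_zero_right]
    exact max_lt (hx.trans_le (min_le_left _ _)) (hy.trans_le (min_le_left _ _))
  have B : ∀ x : ℂ, ‖x‖ < δ →
      c * ‖x‖ ^ k / 2 ≤ ‖G true x - G false x‖ ∧ ‖G true x - G false x‖ ≤ 2 * c * ‖x‖ ^ k := by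
    intro x hx
    apply hb2 x
    rw [Metric.mem_ball, dist_zero_right]
    exact hx.trans_le (min_le_right _ _)
  have hδpos : 0 < δ := lt_min hδ₁ hδ₂
  -- lower and upper bounds for differences
  have A1 : ∀ i, ∀ x y : ℂ, ‖x‖ < δ → ‖y‖ < δ → 99 / 100 * r * ‖x - y‖ ≤ ‖G i x - G i y‖ := by
    intro i x y hx hy
    have h1 := A i x y hx hy
    have h2 : ‖ρ * (x - y)‖ ≤ ‖G i x - G i y‖ + ‖G i x - G i y - ρ * (x - y)‖ := by
      have := norm_sub_le (G i x - G i y) (G i x - G i y - ρ * (x - y))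
      rwa [sub_sub_cancel] at this
    rw [norm_mul, ← hr] at h2
    linarith
  have A2 : ∀ i, ∀ x : ℂ, ‖x‖ < δ → ‖G i x‖ ≤ 101 / 100 * r * ‖x‖ := by
    intro i x hx
    have h1 := A i x 0 hx (by simpa using hδpos)
    rw [hG0, sub_zero, sub_zero] at h1
    have h2 : ‖G i x‖ ≤ ‖G i x - ρ * x‖ + ‖ρ * x‖ := by
      have := norm_add_le (G i x - ρ * x) (ρ * x)
      rwa [sub_add_cancel] at this
    rw [norm_mul, ← hr] at h2
    linarith
  have A3 : ∀ i, ∀ x : ℂ, ‖x‖ < δ → x ≠ 0 → G i x ≠ 0 := by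
    intro i x hx hx0 hcon
    have h1 := A1 i x 0 hx (by simpa using hδpos)
    rw [hG0, hcon, sub_zero, sub_zero, norm_zero] at h1
    have h2 : 0 < ‖x‖ := norm_pos_iff.2 hx0
    have h3 : 0 < 99 / 100 * r * ‖x‖ := by positivity
    linarith
  intro z hz0 hzδ
  have P1 : ∀ w : List Bool, wordMap G w z ≠ 0 ∧ ‖wordMap G w z‖ ≤ (1 / 2) ^ w.length * ‖z‖ := by
    intro w
    induction w with
    | nil => exact ⟨norm_pos_iff.1 hz0, by simp [wordMap]⟩
    | cons i w ih =>
      have hlt : ‖wordMap G w z‖ < δ := by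
        refine lt_of_le_of_lt ih.2 (lt_of_le_of_lt ?_ hzδ)
        have : ((1 : ℝ) / 2) ^ w.length ≤ 1 := pow_le_one₀ (by norm_num) (by norm_num)
        nlinarith
      refine ⟨A3 i _ hlt ih.1, ?_⟩
      have h1 := A2 i _ hlt
      have h2 : 101 / 100 * r ≤ 1 / 2 := by linarith
      calc ‖wordMap G (i :: w) z‖ = ‖G i (wordMap G w z)‖ := rfl
        _ ≤ 101 / 100 * r * ‖wordMap G w z‖ := h1
        _ ≤ 1 / 2 * ‖wordMap G w z‖ := mul_le_mul_of_nonneg_right h2 (norm_nonneg _)
        _ ≤ 1 / 2 * ((1 / 2) ^ w.length * ‖z‖) := mul_le_mul_of_nonneg_left ih.2 (by norm_num)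
        _ = (1 / 2) ^ (i :: w).length * ‖z‖ := by rw [List.length_cons, pow_succ]; ring
  have P2 : ∀ w : List Bool, ‖wordMap G w z‖ < δ := by
    intro w
    refine lt_of_le_of_lt (P1 w).2 (lt_of_le_of_lt ?_ hzδ)
    have : ((1 : ℝ) / 2) ^ w.length ≤ 1 := pow_le_one₀ (by norm_num) (by norm_num)
    nlinarith
  refine ⟨P1, ?_⟩
  have hq : (101 / 100 * r) ^ k ≤ 59 / 100 * r := by
    have h1 : 101 / 100 * r ≤ 1 := by linarith
    calc (101 / 100 * r) ^ k ≤ (101 / 100 * r) ^ 2 := pow_le_pow_of_le_one (by positivity) h1 hk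
      _ ≤ 59 / 100 * r := by nlinarith
  have hq2 : (101 / 100 * r) ^ k * (5 * c / r) ≤ c / 2 := by
    have h1 : 101 / 100 * r ≤ 1 := by linarith
    calc (101 / 100 * r) ^ k * (5 * c / r) ≤ (101 / 100 * r) ^ 2 * (5 * c / r) :=
          mul_le_mul_of_nonneg_right (pow_le_pow_of_le_one (by positivity) h1 hk) (by positivity)
      _ = (101 / 100) ^ 2 * 5 * c * r := by field_simp
      _ ≤ c / 2 := by nlinarith
  have key : ∀ w w' : List Bool, w.length = w'.length → w ≠ w' →
      5 * c / r * ‖wordMap G w' z‖ ^ k ≤ ‖wordMap G w z - wordMap G w' z‖ := by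
    intro w
    induction w with
    | nil =>
      intro w' hl hne'
      cases w' with
      | nil => exact absurd rfl hne'
      | cons => simp at hl
    | cons i t ih =>
      intro w' hl hne'
      cases w' with
      | nil => simp at hl
      | cons j t' =>
        simp only [List.length_cons, Nat.add_right_cancel_iff] at hl
        have hw : wordMap G (i :: t) z = G i (wordMap G t z) := rfl
        have hw' : wordMap G (j :: t') z = G j (wordMap G t' z) := rfl
        rw [hw, hw']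
        by_cases htt : t = t'
        · subst htt
          have hij : i ≠ j := fun h => hne' (by rw [h])
          set x := wordMap G t z with hx
          have hxδ : ‖x‖ < δ := P2 t
          have h1 : c * ‖x‖ ^ k / 2 ≤ ‖G i x - G j x‖ := by
            have := (B x hxδ).1
            cases i <;> cases j <;> simp_all [norm_sub_rev]
          have h2 : ‖G j x‖ ^ k ≤ (101 / 100 * r) ^ k * ‖x‖ ^ k := by
            rw [← mul_pow]
            exact pow_le_pow_left₀ (norm_nonneg _) (A2 j x hxδ) k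
          calc 5 * c / r * ‖G j x‖ ^ k ≤ 5 * c / r * ((101 / 100 * r) ^ k * ‖x‖ ^ k) :=
                mul_le_mul_of_nonneg_left h2 (by positivity)
            _ = (101 / 100 * r) ^ k * (5 * c / r) * ‖x‖ ^ k := by ring
            _ ≤ c / 2 * ‖x‖ ^ k := mul_le_mul_of_nonneg_right hq2 (by positivity)
            _ = c * ‖x‖ ^ k / 2 := by ring
            _ ≤ _ := h1
        · have hI := ih t' hl htt
          set x := wordMap G t z with hx
          set y := wordMap G t' z with hy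
          have hxδ : ‖x‖ < δ := P2 t
          have hyδ : ‖y‖ < δ := P2 t'
          have h1 := A1 i x y hxδ hyδ
          have h2 : ‖G i y - G j y‖ ≤ 2 * c * ‖y‖ ^ k := by
            have := (B y hyδ).2
            have hnn : 0 ≤ 2 * c * ‖y‖ ^ k := by positivity
            cases i <;> cases j
            · simpa using hnn
            · rw [norm_sub_rev]; exact this
            · exact this
            · simpa using hnn
          have h3 : ‖G i x - G i y‖ ≤ ‖G i x - G j y‖ + ‖G i y - G j y‖ := by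
            have := norm_sub_le (G i x - G j y) (G i y - G j y)
            rwa [sub_sub_sub_cancel_right] at this
          have h4 : ‖G j y‖ ^ k ≤ (101 / 100 * r) ^ k * ‖y‖ ^ k := by
            rw [← mul_pow]
            exact pow_le_pow_left₀ (norm_nonneg _) (A2 j y hyδ) k
          have h5 : 2 * c * ‖y‖ ^ k ≤ 2 / 5 * r * ‖x - y‖ := by
            have : 2 * c * ‖y‖ ^ k = 2 / 5 * r * (5 * c / r * ‖y‖ ^ k) := by field_simp
            rw [this]
            exact mul_le_mul_of_nonneg_left hI (by positivity)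
          have h6 : 59 / 100 * r * ‖x - y‖ ≤ ‖G i x - G j y‖ := by linarith
          calc 5 * c / r * ‖G j y‖ ^ k ≤ 5 * c / r * ((101 / 100 * r) ^ k * ‖y‖ ^ k) :=
                mul_le_mul_of_nonneg_left h4 (by positivity)
            _ ≤ 5 * c / r * (59 / 100 * r * ‖y‖ ^ k) :=
                mul_le_mul_of_nonneg_left (mul_le_mul_of_nonneg_right hq (by positivity))
                  (by positivity)
            _ = 59 / 100 * r * (5 * c / r * ‖y‖ ^ k) := by ring
            _ ≤ 59 / 100 * r * ‖x - y‖ := mul_le_mul_of_nonneg_left hI (by positivity)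
            _ ≤ _ := h6
  intro w w' hl hne' heq
  have h1 := key w w' hl hne'
  rw [heq, sub_self, norm_zero] at h1
  have h2 : 0 < ‖wordMap G w' z‖ := norm_pos_iff.2 (P1 w').1
  have h3 : 0 < 5 * c / r * ‖wordMap G w' z‖ ^ k := by positivity
  linarith

end Pool.GL.Helper32
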