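import Pool.Agent.Helper99.GL.FSpec

/-!
Swarm `GL`, part F27: a polynomial with cancelled principal parts.
-/

set_option autoImplicit false

open Metric Set Filter Topology

namespace Pool.GL.Helper32

/-- Taylor expansion with remainder -/
theorem taylor_bigO {f : ℂ → ℂ} (hf : AnalyticAt ℂ f 0) (M : ℕ) :
    ∃ c : Fin M → ℂ, (fun z => f z - ∑ m : Fin M, c m * z ^ (m : ℕ)) =O[𝓝 (0 : ℂ)]
      fun z => z ^ M := by
  obtain ⟨p, hp⟩ := hf
  refine ⟨fun m => p.coeff m, ?_⟩
  have h1 := hp.isBigO_sub_partialSum_pow M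
  have h2 : (fun y : ℂ => f (0 + y) - p.partialSum M y) =
      fun z => f z - ∑ m : Fin M, p.coeff m * z ^ (m : ℕ) := by
    funext z
    rw [zero_add, FormalMultilinearSeries.partialSum, Finset.sum_range]
    congr 1
    apply Finset.sum_congr rfl
    intro m _
    rw [FormalMultilinearSeries.apply_eq_pow_smul_coeff, smul_eq_mul, mul_comm]
  rw [h2] at h1
  refine h1.trans ?_
  apply Asymptotics.IsBigO.of_bound 1
  filter_upwards with z
  simp

/-- exponent of a pair -/
noncomputable def expo {N : ℕ} (q : Fin (N + 1) × Fin (N + 1)) : Fin 2 →₀ ℕ :=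
  Finsupp.single 0 (q.1 : ℕ) + Finsupp.single 1 (q.2 : ℕ)

theorem expo_zero {N : ℕ} (q : Fin (N + 1) × Fin (N + 1)) : expo q 0 = q.1 := by
  simp [expo]

theorem expo_one {N : ℕ} (q : Fin (N + 1) × Fin (N + 1)) : expo q 1 = q.2 := by
  simp [expo]

theorem expo_inj {N : ℕ} {q q' : Fin (N + 1) × Fin (N + 1)} (h : expo q = expo q') : q = q' := by
  have h0 := DFunLike.congr_fun h 0
  have h1 := DFunLike.congr_fun h 1
  rw [expo_zero, expo_zero] at h0
  rw [expo_one, expo_one] at h1
  exact Prod.ext (Fin.ext h0) (Fin.ext h1)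

theorem pol_thm : S_POL := by
  intro n σ hσ
  classical
  set N : ℕ := 2 * n + 1 with hN
  -- the functions
  have hf : ∀ (j : Fin n) (q : Fin (N + 1) × Fin (N + 1)),
      AnalyticAt ℂ (fun z => z ^ (2 * N - q.1 - q.2) * σ j z ^ (q.2 : ℕ)) 0 := by
    intro j q
    exact (analyticAt_id.pow _).mul ((hσ j).pow _)
  choose c hc using fun j q => taylor_bigO (hf j q) (2 * N)
  -- linear map
  let L : ((Fin (N + 1) × Fin (N + 1)) → ℂ) →ₗ[ℂ] (Option (Fin n × Fin (2 * N)) → ℂ) :=
    { toFun := fun r o => match o with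
        | none => r (0, 0)
        | some p => ∑ q, r q * c p.1 q p.2
      map_add' := by
        intro r r'
        funext o
        cases o with
        | none => rfl
        | some p => simp [add_mul, Finset.sum_add_distrib]
      map_smul' := by
        intro a r
        funext o
        cases o with
        | none => rfl
        | some p => simp [Finset.mul_sum, mul_assoc] }
  have hker : LinearMap.ker L ≠ ⊥ := by
    apply LinearMap.ker_ne_bot_of_finrank_lt
    rw [Module.finrank_fintype_fun_eq_card, Module.finrank_fintype_fun_eq_card]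
    simp only [Fintype.card_option, Fintype.card_prod, Fintype.card_fin]
    rw [hN]; nlinarith
  obtain ⟨r, hr, hr0⟩ := Submodule.exists_mem_ne_zero_of_ne_bot hker
  rw [LinearMap.mem_ker] at hr
  have hr00 : r (0, 0) = 0 := congrFun hr none
  have hrc : ∀ (j : Fin n) (m : Fin (2 * N)), ∑ q, r q * c j q m = 0 :=
    fun j m => congrFun hr (some (j, m))
  -- the polynomial
  set R : MvPolynomial (Fin 2) ℂ := ∑ q, MvPolynomial.monomial (expo q) (r q) with hR
  have hcoeff : ∀ q, MvPolynomial.coeff (expo q) R = r q := by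
    intro q
    rw [hR, MvPolynomial.coeff_sum, Finset.sum_eq_single q]
    · rw [MvPolynomial.coeff_monomial, if_pos rfl]
    · intro q' _ hne
      rw [MvPolynomial.coeff_monomial, if_neg]
      exact fun h => hne (expo_inj h)
    · intro h; exact absurd (Finset.mem_univ q) h
  have heval : ∀ x y : ℂ, MvPolynomial.eval ![x, y] R =
      ∑ q : Fin (N + 1) × Fin (N + 1), r q * (x ^ (q.1 : ℕ) * y ^ (q.2 : ℕ)) := by
    intro x y
    rw [hR, map_sum]
    apply Finset.sum_congr rfl
    intro q _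
    rw [MvPolynomial.eval_monomial]
    congr 1
    rw [Finsupp.prod_fintype _ _ (fun i => pow_zero _), Fin.prod_univ_two, expo_zero, expo_one]
    rfl
  refine ⟨R, ?_, ?_, ?_⟩
  · intro hR0
    apply hr0
    funext q
    rw [← hcoeff q, hR0]; rfl
  · have h0 : expo ((0, 0) : Fin (N + 1) × Fin (N + 1)) = 0 := by
      simp [expo]
    rw [MvPolynomial.constantCoeff_eq, ← h0, hcoeff, hr00]
  · -- the bound
    have hbig : ∀ j : Fin n, (fun z => ∑ q : Fin (N + 1) × Fin (N + 1),
        r q * (z ^ (2 * N - q.1 - q.2) * σ j z ^ (q.2 : ℕ))) =O[𝓝 (0 : ℂ)]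
        fun z => z ^ (2 * N) := by
      intro j
      have h1 : (fun z => ∑ q : Fin (N + 1) × Fin (N + 1),
          r q * (z ^ (2 * N - q.1 - q.2) * σ j z ^ (q.2 : ℕ))) =
          fun z => ∑ q : Fin (N + 1) × Fin (N + 1),
            r q * ((z ^ (2 * N - q.1 - q.2) * σ j z ^ (q.2 : ℕ)) -
              ∑ m : Fin (2 * N), c j q m * z ^ (m : ℕ)) := by
        funext z
        have h2 : ∑ q : Fin (N + 1) × Fin (N + 1),
            r q * (∑ m : Fin (2 * N), c j q m * z ^ (m : ℕ)) = 0 := by
          simp only [Finset.mul_sum]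
          rw [Finset.sum_comm]
          apply Finset.sum_eq_zero
          intro m _
          have h3 : ∑ q : Fin (N + 1) × Fin (N + 1), r q * (c j q m * z ^ (m : ℕ)) =
              (∑ q, r q * c j q m) * z ^ (m : ℕ) := by
            rw [Finset.sum_mul]
            exact Finset.sum_congr rfl fun q _ => by ring
          rw [h3, hrc, zero_mul]
        simp only [mul_sub, Finset.sum_sub_distrib]
        rw [h2, sub_zero]
      rw [h1]
      exact Asymptotics.IsBigO.fun_sum (fun q _ => (hc j q).const_mul_left _)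
    choose K hK using fun j => (hbig j).bound
    have hev : ∀ᶠ z in 𝓝 (0 : ℂ), ∀ j : Fin n, ‖∑ q : Fin (N + 1) × Fin (N + 1),
        r q * (z ^ (2 * N - q.1 - q.2) * σ j z ^ (q.2 : ℕ))‖ ≤ K j * ‖z ^ (2 * N)‖ := by
      rw [Filter.eventually_all]
      exact hK
    obtain ⟨δ, hδ, hb⟩ := Metric.eventually_nhds_iff_ball.1 hev
    refine ⟨δ, hδ, ∑ j, |K j|, ?_⟩
    intro j z hz0 hzδ
    have hz : z ≠ 0 := norm_pos_iff.1 hz0
    have h1 := hb z (by rwa [Metric.mem_ball, dist_zero_right]) j
    have h2 : z ^ (2 * N) * MvPolynomial.eval ![1 / z, σ j z / z] R =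
        ∑ q : Fin (N + 1) × Fin (N + 1),
          r q * (z ^ (2 * N - q.1 - q.2) * σ j z ^ (q.2 : ℕ)) := by
      rw [heval, Finset.mul_sum]
      apply Finset.sum_congr rfl
      intro q _
      have hq1 : (q.1 : ℕ) ≤ N := Nat.lt_succ_iff.1 q.1.2
      have hq2 : (q.2 : ℕ) ≤ N := Nat.lt_succ_iff.1 q.2.2
      have h3 : z ^ (2 * N) = z ^ (2 * N - (q.1 : ℕ) - (q.2 : ℕ)) * z ^ (q.1 : ℕ) *
          z ^ (q.2 : ℕ) := by
        rw [← pow_add, ← pow_add]
        congr 1
        omega
      rw [h3, div_pow, div_pow, one_pow]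
      field_simp
    rw [← h2, norm_mul] at h1
    have h4 : 0 < ‖z ^ (2 * N)‖ := norm_pos_iff.2 (pow_ne_zero _ hz)
    have h5 : ‖MvPolynomial.eval ![1 / z, σ j z / z] R‖ ≤ K j := by
      rw [mul_comm (K j)] at h1
      exact le_of_mul_le_mul_left h1 h4
    calc _ ≤ K j := h5
      _ ≤ |K j| := le_abs_self _
      _ ≤ ∑ j, |K j| := Finset.single_le_sum (fun i _ => abs_nonneg (K i)) (Finset.mem_univ j)

end Pool.GL.Helper32
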